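import Pool.Agent.H8.AV3.Stmts

set_option autoImplicit false

namespace Pool.Agent.H1.AV3

open Polynomial Matrix Pool.AVR Pool.AV3

/-- The parametrisation of all quantities by five free parameters. -/
theorem tra_rel {K : Type} [Field K] (h2 : (2 : K) ≠ 0)
    (a b x₁ y₁ t xt yt m₁ xW yW x₀ ms xp : K)
    (hQ : 2 * y₁ * t = 3 * x₁ ^ 2 + 2 * a * x₁ + b)
    (hxt : xt = t ^ 2 - a - 2 * x₁) (hyt : yt = y₁ + t * (xt - x₁))
    (hyW : yW = y₁ + m₁ * (xW - x₁))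
    (s1 : x₁ + xW + x₀ = m₁ ^ 2 - a)
    (s2 : x₁ * xW + x₁ * x₀ + xW * x₀ = b - 2 * m₁ * (y₁ - m₁ * x₁))
    (k1 : yt = yW + ms * (xt - xW))
    (k3 : xW + xt + xp = ms ^ 2 - a)
    (k4 : xW * xt + xW * xp + xt * xp = b - 2 * ms * (yW - ms * xW))
    (hz : yW + y₁ + t * (xW - x₁) ≠ 0) :
    ∃ r k d : K, k ≠ 0 ∧ xW = x₁ + 2 * r * k ∧ xt = x₁ + 2 * r * k - d ∧
      ms = t + 2 * r ^ 2 * k ∧
      m₁ = t + r * d ∧ y₁ = k * (1 - r ^ 2 * d - 2 * t * r) ∧ yW = k * (1 + r ^ 2 * d) := by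
  have T2 : x₁ ^ 2 + 2 * x₁ * xt = b - 2 * t * (y₁ - t * x₁) := by
    linear_combination hQ + 2 * x₁ * hxt
  have E1a : m₁ ^ 2 - t ^ 2 = xW + x₀ - x₁ - xt := by linear_combination -s1 + hxt
  have E1b : x₁ * xt - xW * x₀ = (m₁ - t) * (2 * y₁ - (m₁ + t) * x₁) := by
    linear_combination T2 - s2 - x₁ * E1a
  have e1 : (m₁ - t) * (yW + y₁ + t * (xW - x₁)) = (xW - x₁) * (xW - xt) := by
    linear_combination (m₁ - t) * hyW - E1b + xW * E1a
  have E2a : ms ^ 2 - t ^ 2 = xW + xp - 2 * x₁ := by linear_combination -k3 + hxt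
  have E2b : xW * xp - x₁ ^ 2 = (t - ms) * ((yW - ms * xW) + (y₁ - t * x₁)) := by
    linear_combination k4 - T2 + xt * E2a - (ms + t) * (hyt - k1)
  have e2 : (ms - t) * (yW + y₁ + t * (xW - x₁)) = (xW - x₁) ^ 2 := by
    linear_combination E2b + xW * E2a
  have e3 : yW - y₁ - t * (xW - x₁) = (ms - t) * (xW - xt) := by
    linear_combination hyt - k1
  obtain ⟨z, hzz⟩ : ∃ z, z = yW + y₁ + t * (xW - x₁) := ⟨_, rfl⟩
  rw [← hzz] at e1 e2 hz
  have f1 : m₁ - t = (xW - x₁) * (xW - xt) / z := by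
    rw [eq_div_iff hz, e1]
  have f2 : ms - t = (xW - x₁) ^ 2 / z := by
    rw [eq_div_iff hz, e2]
  have hk : z / 2 ≠ 0 := div_ne_zero hz h2
  have g1 : 2 * ((xW - x₁) / z) * (z / 2) = xW - x₁ := by
    field_simp
  have g2 : 2 * ((xW - x₁) / z) ^ 2 * (z / 2) = ms - t := by
    rw [f2]
    field_simp
  have g3 : (xW - x₁) / z * (xW - xt) = m₁ - t := by
    rw [f1]
    field_simp
  have g4 : 2 * (z / 2) = z := by field_simp
  refine ⟨(xW - x₁) / z, z / 2, xW - xt, hk, ?_, ?_, ?_, ?_, ?_, ?_⟩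
  · rw [g1]; ring
  · rw [g1]; ring
  · rw [g2]; ring
  · rw [g3]; ring
  · have : 2 * y₁ = 2 * (z / 2 * (1 - ((xW - x₁) / z) ^ 2 * (xW - xt) - 2 * t * ((xW - x₁) / z))) := by
      linear_combination -e3 - hzz - g4 + (xW - xt) * g2 + 2 * t * g1
    exact mul_left_cancel₀ h2 this
  · have : 2 * yW = 2 * (z / 2 * (1 + ((xW - x₁) / z) ^ 2 * (xW - xt))) := by
      linear_combination e3 - hzz - g4 - (xW - xt) * g2
    exact mul_left_cancel₀ h2 this

theorem hA_det {K : Type} [Field K] (x₁ r k d t : K) :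
    (hA x₁ (k * (1 - r ^ 2 * d - 2 * t * r)) t (t + r * d) (x₁ + 2 * r * k) (k * (1 + r ^ 2 * d))
      (t + 2 * r ^ 2 * k)).det = -4 * k ^ 2 * (1 - r ^ 2 * d - 2 * t * r) := by
  rw [hA, Matrix.det_fin_three]
  simp only [Matrix.of_apply, Matrix.cons_val]
  ring

theorem ext10 {R : Type} {c c' : Fin 10 → R} (h0 : c 0 = c' 0) (h1 : c 1 = c' 1) (h2 : c 2 = c' 2)
    (h3 : c 3 = c' 3) (h4 : c 4 = c' 4) (h5 : c 5 = c' 5) (h6 : c 6 = c' 6) (h7 : c 7 = c' 7)
    (h8 : c 8 = c' 8) (h9 : c 9 = c' 9) : c = c' := by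
  funext i
  fin_cases i
  · exact h0
  · exact h1
  · exact h2
  · exact h3
  · exact h4
  · exact h5
  · exact h6
  · exact h7
  · exact h8
  · exact h9

theorem TRA_thm : TRAStmt := by
  intro K _ h2 a b c x₁ y₁ t xt yt m₁ xW yW x₀ y₀ ms xp yp hy hT hQ hxt hyt hyW hy0 s1 s2 _ k1 hyp
    k3 k4 _ hz
  obtain ⟨r, k, d, hk, q1, q2, q3, q4, q5, q6⟩ := tra_rel h2 a b x₁ y₁ t xt yt m₁ xW yW x₀ ms xp hQ
    hxt hyt hyW s1 s2 k1 k3 k4 hz
  have qa : a = t ^ 2 - 3 * x₁ - 2 * r * k + d := by linear_combination hxt - q2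
  have qb : b = 2 * y₁ * t - 3 * x₁ ^ 2 - 2 * a * x₁ := by linear_combination -hQ
  have qx0 : x₀ = m₁ ^ 2 - a - x₁ - xW := by linear_combination s1
  have qy0 : y₀ = -(y₁ + m₁ * (x₀ - x₁)) := by linear_combination -hy0
  have qxp : xp = ms ^ 2 - a - xW - xt := by linear_combination k3
  have qyp : yp = -(yW + ms * (xp - xW)) := by linear_combination -hyp
  have hdet : (hA x₁ y₁ t m₁ xW yW ms).det = -4 * k * y₁ := by
    rw [q1, q3, q4, q5, q6, hA_det]
    ring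
  have h4 : (4 : K) ≠ 0 := by
    have : (4 : K) = 2 * 2 := by norm_num
    rw [this]
    exact mul_ne_zero h2 h2
  refine ⟨?_, ?_⟩
  · rw [hdet]
    exact IsUnit.mk0 _ (mul_ne_zero (mul_ne_zero (neg_ne_zero.2 h4) hk) hy)
  · rw [hdet]
    clear hT hQ hxt hyt hyW hy0 s1 s2 k1 hyp k3 k4 hz hdet hy
    subst qyp qxp qy0 qx0 qb qa q6 q5 q4 q3 q2 q1
    refine ext10 ?_ ?_ ?_ ?_ ?_ ?_ ?_ ?_ ?_ ?_
    · simp only [tsub, tev, tder, FP, hA, Matrix.of_apply, Matrix.cons_val, Pi.smul_apply,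
        smul_eq_mul]
      ring
    · simp only [tsub, tev, tder, FP, hA, Matrix.of_apply, Matrix.cons_val, Pi.smul_apply,
        smul_eq_mul]
      ring
    · simp only [tsub, tev, tder, FP, hA, Matrix.of_apply, Matrix.cons_val, Pi.smul_apply,
        smul_eq_mul]
      ring
    · simp only [tsub, tev, tder, FP, hA, Matrix.of_apply, Matrix.cons_val, Pi.smul_apply,
        smul_eq_mul]
      ring
    · simp only [tsub, tev, tder, FP, hA, Matrix.of_apply, Matrix.cons_val, Pi.smul_apply,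
        smul_eq_mul]
      ring
    · simp only [tsub, tev, tder, FP, hA, Matrix.of_apply, Matrix.cons_val, Pi.smul_apply,
        smul_eq_mul]
      ring
    · simp only [tsub, tev, tder, FP, hA, Matrix.of_apply, Matrix.cons_val, Pi.smul_apply,
        smul_eq_mul]
      ring
    · simp only [tsub, tev, tder, FP, hA, Matrix.of_apply, Matrix.cons_val, Pi.smul_apply,
        smul_eq_mul]
      ring
    · simp only [tsub, tev, tder, FP, hA, Matrix.of_apply, Matrix.cons_val, Pi.smul_apply,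
        smul_eq_mul]
      ring
    · simp only [tsub, tev, tder, FP, hA, Matrix.of_apply, Matrix.cons_val, Pi.smul_apply,
        smul_eq_mul]
      ring

end Pool.Agent.H1.AV3
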